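import Pool.Agent.H29.SPL.ThomasseDisproofProof

set_option autoImplicit false

namespace Pool.Agent.Results.MP_ba12ad_co.ThomasseDisproof

/-- For every `k ≥ 3` the Cayley digraph of the integers modulo `n = 3 * k + 2` with connection set
`{1, ..., k - 1, k + 1}` is a maximal digraph without directed cycles of length at most three, has
no homogeneous set, has all outdegrees and indegrees equal to `k > 4 n / 15`, and is isomorphic to
no circular interval digraph.  As `k / n` tends to `1 / 3`, no threshold below `n / 3` makes the
asserted classification true. -/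
theorem result (k : ℕ) (hk : 3 ≤ k) :
    MaximalShortCycleFree (D k) ∧
    (¬ ∃ X : Set (ZMod (3 * k + 2)), Homogeneous (D k) X) ∧
    (∀ u : ZMod (3 * k + 2), {v | (D k).Adj u v}.ncard = k ∧ {v | (D k).Adj v u}.ncard = k) ∧
    (4 * (3 * k + 2 : ℕ) : ℝ) / 15 < k ∧
    (∀ m : ℕ, IsEmpty ((D k).Adj ≃r (circularInterval m).Adj)) :=
  result_proof k hk

end Pool.Agent.Results.MP_ba12ad_co.ThomasseDisproof
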